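import Pool.Agent.H94.PA.M02

/-! # The positive crossing commutes with the insertion of a minimum -/

namespace Pool.Agent.H63.VC10

open Pool.Agent.H63.VC7 Matrix

/-- The entries of a product with `DD` on the right. -/
theorem RD_mul_DD (q : ℂ) (n : ℕ) (A : Matrix (I2 (n + 1)) (I2 (n + 1)) ℂ) (x : I2 (n + 1))
    (y : I2 n) :
    (A * DD q n) x y = A x (y.1.castSucc, y.2.succ) * q ^ (((y.1 : ℕ) : ℤ) + n - (y.2 : ℕ)) +
      A x (y.1.succ, y.2.castSucc) * -q⁻¹ := by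
  have h1 : ∀ z : I2 (n + 1), DD q n z y =
      (if z = (y.1.castSucc, y.2.succ) then q ^ (((y.1 : ℕ) : ℤ) + n - (y.2 : ℕ)) else 0) +
        (if z = (y.1.succ, y.2.castSucc) then -q⁻¹ else 0) := by
    intro z
    unfold DD
    congr 1
    · refine if_congr ?_ rfl rfl
      rw [Prod.ext_iff, Fin.ext_iff, Fin.ext_iff]
      simp
    · refine if_congr ?_ rfl rfl
      rw [Prod.ext_iff, Fin.ext_iff, Fin.ext_iff]
      simp
  rw [Matrix.mul_apply]
  simp only [h1, mul_add, mul_ite, mul_zero]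
  rw [Finset.sum_add_distrib, Finset.sum_ite_eq', Finset.sum_ite_eq']
  simp

/-- The entries of a product of `DD` with the matrix of a crossing. -/
theorem RD_DD_mul (q : ℂ) (n : ℕ) (G : ℕ → ℕ → ℂ) (x : I2 (n + 1)) :
    ∑ z : I2 n, DD q n x z * G z.1 z.2 =
      (if (x.1 : ℕ) ≤ n ∧ 1 ≤ (x.2 : ℕ) then
        q ^ (((x.1 : ℕ) : ℤ) + n + 1 - (x.2 : ℕ)) * G x.1 ((x.2 : ℕ) - 1) else 0) +
      (if 1 ≤ (x.1 : ℕ) ∧ (x.2 : ℕ) ≤ n then -q⁻¹ * G ((x.1 : ℕ) - 1) x.2 else 0) := by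
  unfold DD
  simp only [add_mul]
  rw [Finset.sum_add_distrib]
  congr 1
  · split_ifs with h
    · rw [Finset.sum_eq_single
        ((⟨x.1, by omega⟩, ⟨(x.2 : ℕ) - 1, by have := x.2.2; omega⟩) : I2 n)]
      · rw [if_pos ⟨rfl, by show (x.2 : ℕ) = (x.2 : ℕ) - 1 + 1; omega⟩]
        have e : (((x.1 : ℕ) : ℤ) + n - (((x.2 : ℕ) - 1 : ℕ) : ℤ)) =
            ((x.1 : ℕ) : ℤ) + n + 1 - (x.2 : ℕ) := by omega
        simp only [e]
      · intro z _ hz
        rw [if_neg, zero_mul]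
        rintro ⟨h1, h2⟩
        refine hz (Prod.ext (Fin.ext h1.symm) (Fin.ext ?_))
        show (z.2 : ℕ) = (x.2 : ℕ) - 1
        omega
      · intro h1
        exact absurd (Finset.mem_univ _) h1
    · refine Finset.sum_eq_zero fun z _ => ?_
      rw [if_neg, zero_mul]
      rintro ⟨h1, h2⟩
      have := z.1.2
      exact h ⟨by omega, by omega⟩
  · split_ifs with h
    · rw [Finset.sum_eq_single
        ((⟨(x.1 : ℕ) - 1, by have := x.1.2; omega⟩, ⟨x.2, by omega⟩) : I2 n)]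
      · rw [if_pos ⟨by show (x.1 : ℕ) = (x.1 : ℕ) - 1 + 1; omega, rfl⟩]
      · intro z _ hz
        rw [if_neg, zero_mul]
        rintro ⟨h1, h2⟩
        refine hz (Prod.ext (Fin.ext ?_) (Fin.ext h2.symm))
        show (z.1 : ℕ) = (x.1 : ℕ) - 1
        omega
      · intro h1
        exact absurd (Finset.mem_univ _) h1
    · refine Finset.sum_eq_zero fun z _ => ?_
      rw [if_neg, zero_mul]
      rintro ⟨h1, h2⟩
      have := z.2.2
      exact h ⟨by omega, by omega⟩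

theorem RD_choose (k : ℕ) : (((k + 1).choose 2 : ℕ) : ℤ) = ((k.choose 2 : ℕ) : ℤ) + k := by
  rw [Nat.choose_succ_succ' k 1, Nat.choose_one_right]
  push_cast
  ring

/-- The common factor. -/
noncomputable def RD_F (q : ℂ) (n a b M P d : ℕ) : ℂ :=
  (-1) ^ n * (brf q a * brf q (n - b) / (brf q d * brf q M * brf q P))

/-- The common exponent. -/
def RD_X (n c d : ℕ) : ℤ := (n : ℤ) * (n + 1) - n * (c + d - 1) + 2 * c * d

theorem RD_br (q : ℂ) (hq : q ≠ 0) (d M P : ℤ) :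
    br q (d + M) * br q (M + P) - br q d * br q P = br q M * br q (M + P + d) := by
  have h := br_three_term q hq d (-(M + P)) M
  rw [show -(M + P) + M = -P by ring, show d - -(M + P) = M + P + d by ring, br_neg, br_neg] at h
  linear_combination h

theorem RD_T1 (q : ℂ) (n a b M P d : ℕ) (h : Gen q (n + 1)) (ha : a + 1 = d + M)
    (hn : n + 1 = b + M + P) :
    Rc q (n + 1) a (b + 1) (b + M) d = -RD_F q n a b M P d * br q M *
      q ^ (RD_X n (b + M) d + (n + 2 - (b + M + d)) + (M.choose 2 : ℕ) - M + 1) := by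
  rcases Nat.eq_zero_or_pos M with rfl | hM
  · rw [Nat.cast_zero, br_zero]
    unfold Rc
    rw [if_neg (by omega)]
    ring
  · obtain ⟨k, rfl⟩ : ∃ k, M = k + 1 := ⟨M - 1, by omega⟩
    have hb : br q ((k : ℤ) + 1) ≠ 0 := h.ne (by omega) (by push_cast; omega)
    unfold Rc RD_F RD_X
    rw [if_pos ⟨by omega, by omega, by omega⟩, brf_succ, RD_choose]
    rw [show b + (k + 1) - (b + 1) = k by omega, show n + 1 - (b + 1) = n - b by omega,
      show n + 1 - (b + (k + 1)) = P by omega]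
    have e : ((((n + 1 : ℕ) : ℤ)) * (((n + 1 : ℕ) : ℤ) + 1) - ((n + 1 : ℕ) : ℤ) *
        (((b + (k + 1) : ℕ) : ℤ) + d) + 2 * ((b + (k + 1) : ℕ) : ℤ) * d + (k.choose 2 : ℕ)) =
        ((n : ℤ) * (n + 1) - n * (((b + (k + 1) : ℕ) : ℤ) + d - 1) + 2 * ((b + (k + 1) : ℕ) : ℤ) * d +
          (n + 2 - (b + ((k + 1 : ℕ) : ℤ) + d)) + (((k.choose 2 : ℕ) : ℤ) + k) - ((k + 1 : ℕ) : ℤ) + 1) := by
      push_cast
      ring
    rw [e, Nat.cast_succ k, pow_succ]
    field_simp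

theorem RD_T2 (q : ℂ) (n a b M P d : ℕ) (ha : a + 1 = d + M)
    (hn : n + 1 = b + M + P) (hb : b ≤ n) :
    Rc q (n + 1) (a + 1) b (b + M) d = -RD_F q n a b M P d * (br q (d + M) * br q (M + P)) *
      q ^ (RD_X n (b + M) d + (n + 2 - (b + M + d)) + (M.choose 2 : ℕ)) := by
  unfold Rc RD_F RD_X
  rw [if_pos ⟨by omega, by omega, by omega⟩, brf_succ]
  rw [show b + M - b = M by omega, show n + 1 - b = (n - b) + 1 by omega,
    show n + 1 - (b + M) = P by omega, brf_succ]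
  have e : ((((n + 1 : ℕ) : ℤ)) * (((n + 1 : ℕ) : ℤ) + 1) - ((n + 1 : ℕ) : ℤ) *
      (((b + M : ℕ) : ℤ) + d) + 2 * ((b + M : ℕ) : ℤ) * d + (M.choose 2 : ℕ)) =
      ((n : ℤ) * (n + 1) - n * (((b + M : ℕ) : ℤ) + d - 1) + 2 * ((b + M : ℕ) : ℤ) * d +
        (n + 2 - (b + (M : ℤ) + d)) + ((M.choose 2 : ℕ) : ℤ)) := by
    push_cast
    ring
  have e1 : (a : ℤ) + 1 = d + M := by exact_mod_cast ha
  have e2 : ((n - b : ℕ) : ℤ) + 1 = M + P := by omega
  rw [e, e1, e2, pow_succ]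
  ring

theorem RD_T3 (q : ℂ) (n a b M P d : ℕ) (h : Gen q (n + 1)) (ha : a + 1 = d + M) (han : a ≤ n)
    (hn : n + 1 = b + M + P) :
    (if b + M ≤ n ∧ 1 ≤ d then q ^ (((b + M : ℕ) : ℤ) + n + 1 - d) * Rc q n a b (b + M) (d - 1)
      else 0) = RD_F q n a b M P d * (br q d * br q P) *
      (q ^ (((b + M : ℕ) : ℤ) + n + 1 - d) *
        q ^ (RD_X n (b + M) d - 2 * (b + M) + (M.choose 2 : ℕ))) := by
  rcases Nat.eq_zero_or_pos d with rfl | hd
  · rw [Nat.cast_zero, br_zero, if_neg (by omega)]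
    ring
  rcases Nat.eq_zero_or_pos P with rfl | hP
  · rw [Nat.cast_zero, br_zero, if_neg (by omega)]
    ring
  obtain ⟨i, rfl⟩ : ∃ i, d = i + 1 := ⟨d - 1, by omega⟩
  obtain ⟨j, rfl⟩ : ∃ j, P = j + 1 := ⟨P - 1, by omega⟩
  have hi : br q ((i : ℤ) + 1) ≠ 0 := h.ne (by omega) (by push_cast; omega)
  have hj : br q ((j : ℤ) + 1) ≠ 0 := h.ne (by omega) (by push_cast; omega)
  rw [if_pos ⟨by omega, by omega⟩]
  unfold Rc RD_F RD_X
  rw [if_pos ⟨by omega, by omega, by omega⟩, brf_succ, brf_succ]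
  rw [show b + M - b = M by omega, show n - (b + M) = j by omega,
    show i + 1 - 1 = i by omega]
  have e : ((n : ℤ) * (n + 1) - n * (((b + M : ℕ) : ℤ) + i) + 2 * ((b + M : ℕ) : ℤ) * i +
      (M.choose 2 : ℕ)) = ((n : ℤ) * (n + 1) - n * (((b + M : ℕ) : ℤ) + ((i + 1 : ℕ) : ℤ) - 1) +
        2 * ((b + M : ℕ) : ℤ) * ((i + 1 : ℕ) : ℤ) - 2 * (b + M) + (M.choose 2 : ℕ)) := by
    push_cast
    ring
  rw [e, Nat.cast_succ i, Nat.cast_succ j]
  field_simp

theorem RD_T4 (q : ℂ) (n a b M P d : ℕ) (h : Gen q (n + 1)) (ha : a + 1 = d + M) (han : a ≤ n)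
    (hn : n + 1 = b + M + P) :
    (if 1 ≤ b + M ∧ d ≤ n then -q⁻¹ * Rc q n a b (b + M - 1) d else 0) =
      -q⁻¹ * (RD_F q n a b M P d * br q M *
        q ^ (RD_X n (b + M) d - 2 * d + (M.choose 2 : ℕ) - M + 1)) := by
  rcases Nat.eq_zero_or_pos M with rfl | hM
  · rw [Nat.cast_zero, br_zero]
    have h0 : Rc q n a b (b + 0 - 1) d = 0 ∨ ¬ (1 ≤ b + 0 ∧ d ≤ n) := by
      by_cases hb : 1 ≤ b
      · left
        unfold Rc
        rw [if_neg (by omega)]
      · right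
        omega
    rcases h0 with h0 | h0
    · rw [h0]
      simp
    · rw [if_neg h0]
      ring
  · obtain ⟨k, rfl⟩ : ∃ k, M = k + 1 := ⟨M - 1, by omega⟩
    have hb : br q ((k : ℤ) + 1) ≠ 0 := h.ne (by omega) (by push_cast; omega)
    rw [if_pos ⟨by omega, by omega⟩]
    unfold Rc RD_F RD_X
    rw [if_pos ⟨by omega, by omega, by omega⟩, brf_succ, RD_choose]
    rw [show b + (k + 1) - 1 - b = k by omega, show n - (b + (k + 1) - 1) = P by omega]
    have e0 : ((b + (k + 1) - 1 : ℕ) : ℤ) = (b : ℤ) + k := by omega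
    have e : ((n : ℤ) * (n + 1) - n * (((b + (k + 1) - 1 : ℕ) : ℤ) + d) +
        2 * ((b + (k + 1) - 1 : ℕ) : ℤ) * d + (k.choose 2 : ℕ)) =
        ((n : ℤ) * (n + 1) - n * (((b + (k + 1) : ℕ) : ℤ) + d - 1) + 2 * ((b + (k + 1) : ℕ) : ℤ) * d -
          2 * d + (((k.choose 2 : ℕ) : ℤ) + k) - ((k + 1 : ℕ) : ℤ) + 1) := by
      rw [e0]
      push_cast
      ring
    rw [e, Nat.cast_succ k]
    field_simp

theorem RD_alg (q : ℂ) (hq : q ≠ 0) (F : ℂ) (X C a n b c d M P : ℤ) (ha : a = d + M - 1)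
    (hn : n = b + M + P - 1) (hc : c = b + M) :
    -F * br q M * q ^ (X + (n + 2 - (b + M + d)) + C - M + 1) * q ^ (a + n - b) +
      -F * (br q (d + M) * br q (M + P)) * q ^ (X + (n + 2 - (b + M + d)) + C) * -q⁻¹ =
    F * (br q d * br q P) * (q ^ (c + n + 1 - d) * q ^ (X - 2 * (b + M) + C)) +
      -q⁻¹ * (F * br q M * q ^ (X - 2 * d + C - M + 1)) := by
  have h1 := RD_br q hq d M P
  have e1 : q ^ (X + (n + 2 - (b + M + d)) + C - M + 1) * q ^ (a + n - b) =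
      q ^ (X + C + P - d) * q ^ (M + P + d) := by
    rw [← zpow_add₀ hq, ← zpow_add₀ hq]
    congr 1
    rw [ha, hn]
    ring
  have e2 : q ^ (X + (n + 2 - (b + M + d)) + C) * q⁻¹ = q ^ (X + C + P - d) := by
    rw [← _root_.zpow_neg_one, ← zpow_add₀ hq]
    congr 1
    rw [hn]
    ring
  have e3 : q ^ (c + n + 1 - d) * q ^ (X - 2 * (b + M) + C) = q ^ (X + C + P - d) := by
    rw [← zpow_add₀ hq]
    congr 1
    rw [hn, hc]
    ring
  have e4 : q⁻¹ * q ^ (X - 2 * d + C - M + 1) = q ^ (X + C + P - d) * q ^ (-(M + P + d)) := by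
    rw [← _root_.zpow_neg_one, ← zpow_add₀ hq, ← zpow_add₀ hq]
    congr 1
    ring
  have e5 : br q (M + P + d) = q ^ (M + P + d) - q ^ (-(M + P + d)) := rfl
  rw [e5] at h1
  rw [e3]
  linear_combination (-F * br q M) * e1 + (F * (br q (d + M) * br q (M + P))) * e2 +
    (F * br q M) * e4 + F * q ^ (X + C + P - d) * h1

theorem RM_DD (q : ℂ) (n : ℕ) (h : Gen q (n + 1)) :
    RM q (n + 1) * DD q n = DD q n * RM q n := by
  ext x y
  rw [RD_mul_DD, Matrix.mul_apply]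
  have hr := RD_DD_mul q n (fun c d => Rc q n y.1 y.2 c d) x
  have hr' : ∑ z : I2 n, DD q n x z * RM q n z y =
      ∑ z : I2 n, DD q n x z * (fun c d => Rc q n y.1 y.2 c d) (z.1 : ℕ) (z.2 : ℕ) := rfl
  rw [hr', hr]
  have hx1 := x.1.2
  have hx2 := x.2.2
  have hy1 := y.1.2
  have hy2 := y.2.2
  show Rc q (n + 1) (y.1 : ℕ) ((y.2 : ℕ) + 1) x.1 x.2 * q ^ (((y.1 : ℕ) : ℤ) + n - (y.2 : ℕ)) +
      Rc q (n + 1) ((y.1 : ℕ) + 1) (y.2 : ℕ) x.1 x.2 * -q⁻¹ = _
  generalize (x.1 : ℕ) = c at *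
  generalize (x.2 : ℕ) = d at *
  generalize (y.1 : ℕ) = a at *
  generalize (y.2 : ℕ) = b at *
  by_cases h1 : a + b + 1 = c + d
  swap
  · have z1 : Rc q (n + 1) a (b + 1) c d = 0 := by
      unfold Rc
      rw [if_neg (by omega)]
    have z2 : Rc q (n + 1) (a + 1) b c d = 0 := by
      unfold Rc
      rw [if_neg (by omega)]
    have z3 : 1 ≤ d → Rc q n a b c (d - 1) = 0 := by
      intro hd
      unfold Rc
      rw [if_neg (by omega)]
    have z4 : 1 ≤ c → Rc q n a b (c - 1) d = 0 := by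
      intro hc
      unfold Rc
      rw [if_neg (by omega)]
    rw [z1, z2]
    have z5 : (if c ≤ n ∧ 1 ≤ d then q ^ ((c : ℤ) + n + 1 - d) * Rc q n a b c (d - 1) else 0) = 0 := by
      split_ifs with h5
      · rw [z3 h5.2, mul_zero]
      · rfl
    have z6 : (if 1 ≤ c ∧ d ≤ n then -q⁻¹ * Rc q n a b (c - 1) d else 0) = 0 := by
      split_ifs with h5
      · rw [z4 h5.1, mul_zero]
      · rfl
    simp only [z5, z6]
    ring
  by_cases h2 : b ≤ c
  swap
  · have z1 : Rc q (n + 1) a (b + 1) c d = 0 := by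
      unfold Rc
      rw [if_neg (by omega)]
    have z2 : Rc q (n + 1) (a + 1) b c d = 0 := by
      unfold Rc
      rw [if_neg (by omega)]
    have z3 : Rc q n a b c (d - 1) = 0 := by
      unfold Rc
      rw [if_neg (by omega)]
    have z4 : Rc q n a b (c - 1) d = 0 := by
      unfold Rc
      rw [if_neg (by omega)]
    simp only [z1, z2, z3, z4, mul_zero, zero_mul, ite_self]
  obtain ⟨M, rfl⟩ : ∃ M, c = b + M := ⟨c - b, by omega⟩
  obtain ⟨P, hP⟩ : ∃ P, n + 1 = b + M + P := ⟨n + 1 - (b + M), by omega⟩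
  have ha : a + 1 = d + M := by omega
  have t3 := RD_T3 q n a b M P d h ha (by omega) hP
  have t4 := RD_T4 q n a b M P d h ha (by omega) hP
  rw [RD_T1 q n a b M P d h ha hP, RD_T2 q n a b M P d ha hP (by omega)]
  simp only [t3, t4]
  exact RD_alg q h.1 (RD_F q n a b M P d) (RD_X n (b + M) d) (M.choose 2 : ℕ) a n b
    ((b + M : ℕ) : ℤ) d M P (by omega) (by omega) (by push_cast; ring)

end Pool.Agent.H63.VC10
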